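import Pool.Agent.Q262.Outer.Defs

/-!
# `γ̃_c(L(G))` can exceed `γ̃_c(M(G))` by any amount

`G` is the dumbbell: two complete graphs on `a` vertices joined by a path with three edges.
-/

set_option autoImplicit false

namespace Pool.Agent.Results.MP_9a7beb_co.DumbbellFails

open Finset OuterDom

/-- vertices of the dumbbell: two cliques and the two inner vertices of the path -/
abbrev Vx (a : ℕ) : Type := (Bool × Fin a) ⊕ Bool

/-- adjacency -/
def adj {a : ℕ} : Vx a → Vx a → Prop
  | Sum.inl (s, i), Sum.inl (t, j) => s = t ∧ i ≠ j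
  | Sum.inl (s, i), Sum.inr t => s = t ∧ i.val = 0
  | Sum.inr t, Sum.inl (s, i) => s = t ∧ i.val = 0
  | Sum.inr s, Sum.inr t => s ≠ t

/-- the dumbbell -/
def G (a : ℕ) : SimpleGraph (Vx a) where
  Adj := adj
  symm := ⟨by
    rintro (⟨s, i⟩ | s) (⟨t, j⟩ | t) h
    · exact ⟨h.1.symm, h.2.symm⟩
    · exact h
    · exact h
    · exact Ne.symm h⟩
  loopless := ⟨by
    rintro (⟨s, i⟩ | s) h
    · exact h.2 rfl
    · exact h rfl⟩

/-- position along the dumbbell -/
def lev {a : ℕ} : Vx a → ℕ
  | Sum.inl (false, _) => 0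
  | Sum.inr false => 1
  | Sum.inr true => 2
  | Sum.inl (true, _) => 3

theorem up {a : ℕ} {u v : Vx a} (h : (G a).Adj u v) (hl : lev u < lev v) :
    (lev u = 0 ∧ v = Sum.inr false ∧ ∃ i : Fin a, i.val = 0 ∧ u = Sum.inl (false, i)) ∨
    (lev u = 1 ∧ v = Sum.inr true ∧ u = Sum.inr false) ∨
    (lev u = 2 ∧ u = Sum.inr true ∧ ∃ i : Fin a, i.val = 0 ∧ v = Sum.inl (true, i)) := by
  rcases u with ⟨s, i⟩ | s <;> rcases v with ⟨t, j⟩ | t
  · obtain ⟨rfl, -⟩ := h
    cases s <;> simp [lev] at hl
  · obtain ⟨rfl, h0⟩ := h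
    cases s
    · left; exact ⟨rfl, rfl, i, h0, rfl⟩
    · simp [lev] at hl
  · obtain ⟨rfl, h0⟩ := h
    cases t
    · simp [lev] at hl
    · right; right; exact ⟨rfl, rfl, j, h0, rfl⟩
  · cases s <;> cases t
    · exact absurd rfl h
    · right; left; exact ⟨rfl, rfl, rfl⟩
    · simp [lev] at hl
    · exact absurd rfl h

/-- the end points of the three path edges -/
def Lv {a : ℕ} (ha : 0 < a) : ℕ → Vx a
  | 0 => Sum.inl (false, ⟨0, ha⟩)
  | 1 => Sum.inr false
  | 2 => Sum.inr true
  | _ => Sum.inl (true, ⟨0, ha⟩)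

theorem up' {a : ℕ} (ha : 0 < a) {u v : Vx a} (h : (G a).Adj u v) {t : ℕ}
    (hu : lev u ≤ t) (hv : t < lev v) : u = Lv ha t ∧ v = Lv ha (t + 1) := by
  rcases up h (by omega) with ⟨h1, h2, i, h3, h4⟩ | ⟨h1, h2, h3⟩ | ⟨h1, h2, i, h3, h4⟩
  · have : t = 0 := by rw [h2] at hv; simp [lev] at hv; omega
    subst this
    refine ⟨?_, h2⟩
    rw [h4]
    simp only [Lv]
    congr 2
    exact Fin.ext h3
  · have : t = 1 := by rw [h2] at hv; simp [lev] at hv; omega
    subst this
    exact ⟨h3, h2⟩
  · have : t = 2 := by rw [h4] at hv; simp [lev] at hv; omega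
    subst this
    refine ⟨h2, ?_⟩
    rw [h4]
    simp only [Lv]
    congr 2
    exact Fin.ext h3

section lower

variable {a : ℕ}

/-- If `D` is an outer-connected dominating set of the line graph, all edges of one of the two
cliques belong to `D`. -/
theorem clique_in (ha : 0 < a) (D : Finset (G a).edgeSet) (hD : IsOCD (G a).lineGraph D) :
    ∃ s : Bool, ∀ e : (G a).edgeSet, (∀ v ∈ (e : Sym2 (Vx a)), ∃ i, v = Sum.inl (s, i)) →
      e ∈ D := by
  by_contra hno
  push Not at hno
  obtain ⟨eA, hA, hAD⟩ := hno false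
  obtain ⟨eB, hB, hBD⟩ := hno true
  obtain ⟨hdom, hconn⟩ := hD
  -- each of the three path edges lies outside `D`
  have hcross : ∀ t, t ≤ 2 → ∃ e : (G a).edgeSet, e ∉ D ∧
      (e : Sym2 (Vx a)) = s(Lv ha t, Lv ha (t + 1)) := by
    intro t ht
    obtain ⟨x, hx, y, hy, hxy, px, py⟩ := crossing hconn (a := eA) (b := eB) hAD hBD
      (fun e => ∀ v ∈ (e : Sym2 (Vx a)), lev v ≤ t)
      (by
        intro v hv
        obtain ⟨i, hi⟩ := hA v hv
        rw [hi]
        simp [lev])
      (by
        intro hcon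
        have hne : ∃ v, v ∈ (eB : Sym2 (Vx a)) := by
          induction h : (eB : Sym2 (Vx a)) with
          | _ u v => exact ⟨u, Sym2.mem_mk_left u v⟩
        obtain ⟨v, hv⟩ := hne
        have h1 := hcon v hv
        obtain ⟨i, hi⟩ := hB v hv
        rw [hi] at h1
        simp [lev] at h1
        omega)
    push Not at py
    obtain ⟨w', hw', hlev⟩ := py
    rw [SimpleGraph.lineGraph_adj_iff_exists] at hxy
    obtain ⟨-, w, hwx, hwy⟩ := hxy
    have hlw := px w hwx
    have hne : w ≠ w' := by
      rintro rfl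
      omega
    have hyeq : (y : Sym2 (Vx a)) = s(w, w') := (Sym2.mem_and_mem_iff hne).1 ⟨hwy, hw'⟩
    have hadj : (G a).Adj w w' := by
      have := y.2
      rw [hyeq, SimpleGraph.mem_edgeSet] at this
      exact this
    obtain ⟨e1, e2⟩ := up' ha hadj hlw hlev
    exact ⟨y, hy, by rw [hyeq, e1, e2]⟩
  obtain ⟨f0, hf0D, hf0⟩ := hcross 0 (by norm_num)
  obtain ⟨f1, hf1D, hf1⟩ := hcross 1 (by norm_num)
  obtain ⟨f2, hf2D, hf2⟩ := hcross 2 (by norm_num)
  obtain ⟨d, hd, hadj⟩ := hdom f1 hf1D
  rw [SimpleGraph.lineGraph_adj_iff_exists] at hadj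
  obtain ⟨hne, w, hw1, hwd⟩ := hadj
  rw [hf1, Sym2.mem_iff] at hw1
  obtain ⟨z, hz⟩ := Sym2.mem_iff_exists.1 hwd
  have hadj' : (G a).Adj w z := by
    have := d.2
    rw [hz, SimpleGraph.mem_edgeSet] at this
    exact this
  rcases hw1 with h | h
  · -- `w` is the first inner vertex
    simp only [Lv] at h
    rw [h] at hadj' hz
    rcases z with ⟨t, j⟩ | t
    · obtain ⟨rfl, hj⟩ := hadj'
      apply hf0D
      have : d = f0 := by
        apply Subtype.ext
        rw [hz, hf0]
        simp only [Lv]
        rw [Sym2.eq_swap]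
        congr 4
        exact Fin.ext hj
      rwa [← this]
    · cases t
      · exact absurd rfl hadj'
      · apply hne
        apply Subtype.ext
        rw [hz, hf1]
        simp only [Lv]
  · simp only [Lv] at h
    rw [h] at hadj' hz
    rcases z with ⟨t, j⟩ | t
    · obtain ⟨rfl, hj⟩ := hadj'
      apply hf2D
      have : d = f2 := by
        apply Subtype.ext
        rw [hz, hf2]
        simp only [Lv]
        congr 4
        exact Fin.ext hj
      rwa [← this]
    · cases t
      · apply hne
        apply Subtype.ext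
        rw [hz, hf1]
        simp only [Lv]
        exact Sym2.eq_swap
      · exact absurd rfl hadj'

open Classical in
theorem line_lower (ha : 0 < a) : a.choose 2 ≤ ocdNumber (G a).lineGraph := by
  apply le_ocd
  intro D hD
  obtain ⟨s, hs⟩ := clique_in ha D hD
  have hinj : Function.Injective (Sym2.map (fun i : Fin a => (Sum.inl (s, i) : Vx a))) := by
    apply Sym2.map.injective
    intro i j hij
    simpa using hij
  have hsub : ((⊤ : SimpleGraph (Fin a)).edgeFinset.image
      (Sym2.map (fun i : Fin a => (Sum.inl (s, i) : Vx a)))) ⊆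
      D.image (fun e : (G a).edgeSet => e.1) := by
    intro x hx
    rw [Finset.mem_image] at hx
    obtain ⟨e, he, rfl⟩ := hx
    rw [SimpleGraph.mem_edgeFinset] at he
    induction e with
    | _ i j =>
      rw [SimpleGraph.mem_edgeSet, SimpleGraph.top_adj] at he
      rw [Finset.mem_image]
      have hmem : s((Sum.inl (s, i) : Vx a), Sum.inl (s, j)) ∈ (G a).edgeSet := by
        rw [SimpleGraph.mem_edgeSet]
        exact ⟨rfl, he⟩
      refine ⟨⟨_, hmem⟩, ?_, rfl⟩
      apply hs
      intro v hv
      simp only [Sym2.mem_iff] at hv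
      rcases hv with rfl | rfl
      · exact ⟨i, rfl⟩
      · exact ⟨j, rfl⟩
  have h1 := Finset.card_le_card hsub
  rw [Finset.card_image_of_injective _ hinj,
    SimpleGraph.card_edgeFinset_top_eq_card_choose_two, Fintype.card_fin] at h1
  exact h1.trans Finset.card_image_le

end lower

theorem G_connected (a : ℕ) : (G a).Connected := by
  have h0 : ∀ x : Vx a, (G a).Reachable (Sum.inr false) x := by
    have hm : (G a).Adj (Sum.inr false) (Sum.inr true) := by
      change false ≠ true
      simp
    have hs : ∀ s : Bool, (G a).Reachable (Sum.inr false) (Sum.inr s) := by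
      intro s
      cases s
      · exact SimpleGraph.Reachable.refl _
      · exact hm.reachable
    rintro (⟨s, i⟩ | s)
    · have h1 : (G a).Adj (Sum.inr s) (Sum.inl (s, ⟨0, i.pos⟩)) := ⟨rfl, rfl⟩
      by_cases hi : i = ⟨0, i.pos⟩
      · rw [hi]
        exact (hs s).trans h1.reachable
      · have h2 : (G a).Adj (Sum.inl (s, ⟨0, i.pos⟩)) (Sum.inl (s, i)) := ⟨rfl, Ne.symm hi⟩
        exact ((hs s).trans h1.reachable).trans h2.reachable
    · exact hs s
  have : Nonempty (Vx a) := ⟨Sum.inr false⟩
  exact SimpleGraph.Connected.mk (fun x y => (h0 x).symm.trans (h0 y))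

open Classical in
/-- In a connected graph, the set of all vertices is an outer-connected dominating set of the
middle graph. -/
theorem middle_upper {V : Type} [Fintype V] (H : SimpleGraph V) (hH : H.Connected) :
    ocdNumber (middleGraph H) ≤ Fintype.card V := by
  set D : Finset (V ⊕ H.edgeSet) := Finset.univ.map ⟨Sum.inl, Sum.inl_injective⟩ with hD
  have hmem : ∀ x : V ⊕ H.edgeSet, x ∉ D ↔ ∃ e, x = Sum.inr e := by
    rintro (v | e)
    · simp [hD]
    · simp [hD]
  have hocd : IsOCD (middleGraph H) D := by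
    constructor
    · intro x hx
      obtain ⟨e, rfl⟩ := (hmem x).1 hx
      have hne : ∃ v, v ∈ (e : Sym2 V) := by
        induction h : (e : Sym2 V) with
        | _ u v => exact ⟨u, Sym2.mem_mk_left u v⟩
      obtain ⟨v, hv⟩ := hne
      exact ⟨Sum.inl v, by simp [hD], hv⟩
    · have key : ∀ u x : V, Relation.ReflTransGen H.Adj u x → ∀ (e f : H.edgeSet)
          (he : (Sum.inr e : V ⊕ H.edgeSet) ∉ D) (hf : (Sum.inr f : V ⊕ H.edgeSet) ∉ D),
          u ∈ (e : Sym2 V) → x ∈ (f : Sym2 V) →
          ((middleGraph H).induce {v | v ∉ D}).Reachable ⟨Sum.inr e, he⟩ ⟨Sum.inr f, hf⟩ := by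
        intro u x hux
        induction hux with
        | refl =>
          intro e f he hf hue hxf
          by_cases hef : e = f
          · subst hef
            exact SimpleGraph.Reachable.refl _
          · have : ((middleGraph H).induce {v | v ∉ D}).Adj ⟨Sum.inr e, he⟩ ⟨Sum.inr f, hf⟩ :=
              ⟨hef, u, hue, hxf⟩
            exact this.reachable
        | @tail y z _ hyz ih =>
          intro e f he hf hue hxf
          have hg : s(y, z) ∈ H.edgeSet := hyz
          have hgD : (Sum.inr ⟨s(y, z), hg⟩ : V ⊕ H.edgeSet) ∉ D := by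
            rw [hmem]; exact ⟨_, rfl⟩
          have h1 := ih e ⟨s(y, z), hg⟩ he hgD hue (Sym2.mem_mk_left y z)
          by_cases hgf : (⟨s(y, z), hg⟩ : H.edgeSet) = f
          · subst hgf
            exact h1
          · have : ((middleGraph H).induce {v | v ∉ D}).Adj ⟨Sum.inr ⟨s(y, z), hg⟩, hgD⟩
                ⟨Sum.inr f, hf⟩ := ⟨hgf, z, Sym2.mem_mk_right y z, hxf⟩
            exact h1.trans this.reachable
      rintro ⟨x, hx⟩ ⟨y, hy⟩
      obtain ⟨e, rfl⟩ := (hmem x).1 hx
      obtain ⟨f, rfl⟩ := (hmem y).1 hy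
      have hne : ∀ e : H.edgeSet, ∃ v, v ∈ (e : Sym2 V) := by
        intro e
        induction h : (e : Sym2 V) with
        | _ u v => exact ⟨u, Sym2.mem_mk_left u v⟩
      obtain ⟨u, hu⟩ := hne e
      obtain ⟨w, hw⟩ := hne f
      have hr := hH.preconnected u w
      rw [SimpleGraph.reachable_iff_reflTransGen] at hr
      exact key u w hr e f hx hy hu hw
  have h1 := ocd_le hocd
  rw [hD, Finset.card_map, Finset.card_univ] at h1
  exact h1

/-- For every `N` there is a connected graph `G` with at least two vertices such that the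
outer-connected domination number of its line graph is more than `N` larger than that of its middle
graph. -/
theorem result : ∀ N : ℕ, ∃ (V : Type) (_ : Fintype V) (G : SimpleGraph V),
    G.Connected ∧ 2 ≤ Fintype.card V ∧
    ocdNumber (middleGraph G) + N < ocdNumber G.lineGraph := by
  intro N
  refine ⟨Vx (N + 6), inferInstance, G (N + 6), G_connected _, ?_, ?_⟩
  · simp
  · have h1 := line_lower (a := N + 6) (by omega)
    have h2 := middle_upper (G (N + 6)) (G_connected _)
    have h3 : Fintype.card (Vx (N + 6)) = 2 * (N + 6) + 2 := by simp [Vx]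
    rw [h3] at h2
    have h4 : 2 * (N + 6) + 2 + N < (N + 6).choose 2 := by
      rw [Nat.choose_two_right]
      have : 2 * (2 * (N + 6) + 2 + N) + 2 ≤ (N + 6) * (N + 6 - 1) := by
        have e : N + 6 - 1 = N + 5 := by omega
        rw [e]
        nlinarith
      omega
    omega

end Pool.Agent.Results.MP_9a7beb_co.DumbbellFails
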